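import Pool.Agent.Work.MP_74021c_co.Bd.B08
import Pool.Agent.Work.MP_74021c_co.Bd.B03
import Pool.Agent.Work.MP_74021c_co.Bd.B04

set_option autoImplicit false

namespace DLow

theorem pts_OK : ∀ i j : ℕ, i < j → ∀ (u v : Vt × List ℕ), (pts.map toV)[i]? = some u →
    (pts.map toV)[j]? = some v → OK (pts.map toV) u.1 v.1 := by
  intro i j hij u v hu hv
  have hi : i < 477 := by
    have h := (List.getElem?_eq_some_iff.1 hu).1
    rwa [List.length_map, pts_length] at h
  by_cases h1 : i < 64
  · exact check_sound pts 0 64 run1 i (by omega) (by omega) j hij u v hu hv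
  by_cases h2 : i < 140
  · exact check_sound pts 64 76 run2 i (by omega) (by omega) j hij u v hu hv
  by_cases h3 : i < 238
  · exact check_sound pts 140 98 run3 i (by omega) (by omega) j hij u v hu hv
  · exact check_sound pts 238 239 run4 i (by omega) (by omega) j hij u v hu hv

theorem bound : ∃ (S : Finset ℂ) (p q : ℂ), GenPos S ∧ p ∈ S ∧ q ∈ S ∧ p ≠ q ∧
    (Del S).Reachable p q ∧
      ∀ w : (Del S).Walk p q, ((15934 : ℕ) : ℝ) / (10000 : ℕ) * dist p q < wlen w :=
  final pts 15934 10000 (by norm_num) (by norm_num) 0 462 pts_OK runEnd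

end DLow
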