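import Mathlib

/-!
# Lower bound for the stretch factor of Delaunay triangulations: the checker

Points are pairs of natural numbers.  For every pair of points `u, v` the checker finds either that
the potential difference is smaller than the distance, or a cone certificate showing that `u v` is
not an edge of the Delaunay graph.  Everything is computed with natural numbers in the kernel.
-/

set_option autoImplicit false

namespace DLow

/-- evaluate `n` to a literal before going on -/
def force (n : ℕ) (k : ℕ → Bool) : Bool :=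
  Nat.rec (motive := fun _ => Bool) (k 0) (fun m _ => k (Nat.succ m)) n

theorem force_eq (n : ℕ) (k : ℕ → Bool) : force n k = k n := by
  cases n <;> rfl

/-- a vertex: coordinates, `q = x² + y²`, potential, `s = f²` -/
structure Vt where
  x : ℕ
  y : ℕ
  q : ℕ
  f : ℕ
  s : ℕ

/-- the two sides of the determinant test `cr u a v > 0` -/
def crP (u a v : Vt) : ℕ := a.x * v.y + v.x * u.y + u.x * a.y
def crN (u a v : Vt) : ℕ := a.y * v.x + v.y * u.x + u.y * a.x

/-- a cone at `u` -/
structure Cn where
  xa : ℕ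
  ya : ℕ
  ca : ℕ
  ca' : ℕ
  xb : ℕ
  yb : ℕ
  cb : ℕ
  cb' : ℕ
  dp : ℕ
  dn : ℕ
  ap : ℕ
  an : ℕ
  bp : ℕ
  bn : ℕ
  gp : ℕ
  gn : ℕ

/-- the cone of `a, b` at `u` -/
def mk (u a b : Vt) : Cn :=
  ⟨a.x, a.y, u.x * a.y, u.y * a.x, b.x, b.y, u.x * b.y, u.y * b.x,
    u.x * a.y + a.x * b.y + b.x * u.y, a.x * u.y + b.x * a.y + u.x * b.y,
    u.q * a.y + a.q * b.y + b.q * u.y, a.q * u.y + b.q * a.y + u.q * b.y,
    u.x * a.q + a.x * b.q + b.x * u.q, a.x * u.q + b.x * a.q + u.x * b.q,
    u.x * a.y * b.q + a.x * b.y * u.q + b.x * u.y * a.q,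
    u.x * b.y * a.q + a.x * u.y * b.q + b.x * a.y * u.q⟩

def mkF (u a b : Vt) (k : Cn → Bool) : Bool :=
  force (u.x * a.y) fun ca => force (u.y * a.x) fun ca' =>
  force (u.x * b.y) fun cb => force (u.y * b.x) fun cb' =>
  force (u.x * a.y + a.x * b.y + b.x * u.y) fun dp =>
  force (a.x * u.y + b.x * a.y + u.x * b.y) fun dn =>
  force (u.q * a.y + a.q * b.y + b.q * u.y) fun ap =>
  force (a.q * u.y + b.q * a.y + u.q * b.y) fun an =>
  force (u.x * a.q + a.x * b.q + b.x * u.q) fun bp =>
  force (a.x * u.q + b.x * a.q + u.x * b.q) fun bn =>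
  force (u.x * a.y * b.q + a.x * b.y * u.q + b.x * u.y * a.q) fun gp =>
  force (u.x * b.y * a.q + a.x * u.y * b.q + b.x * a.y * u.q) fun gn =>
  k ⟨a.x, a.y, ca, ca', b.x, b.y, cb, cb', dp, dn, ap, an, bp, bn, gp, gn⟩

theorem mkF_eq (u a b : Vt) (k : Cn → Bool) : mkF u a b k = k (mk u a b) := by
  simp only [mkF, force_eq, mk]

/-- the test for one cone; `m = u.x * v.y`, `m' = u.y * v.x` -/
def coneT (m m' : ℕ) (v : Vt) (c : Cn) : Bool :=
  Nat.blt (c.ya * v.x + m + c.ca') (c.xa * v.y + m' + c.ca) &&
  (Nat.blt (c.xb * v.y + m' + c.cb) (c.yb * v.x + m + c.cb') &&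
  Nat.blt (c.dn * v.q + c.ap * v.x + c.bp * v.y + c.gp)
    (c.dp * v.q + c.an * v.x + c.bn * v.y + c.gn))

/-- the Lipschitz test -/
def lipT (u v : Vt) : Bool :=
  Nat.blt (2 * (u.x * v.x + u.y * v.y) + (u.s + v.s)) (u.q + v.q + 2 * (u.f * v.f))

/-- all cones at `u` -/
def cones (u first : Vt) : List Vt → (List Cn → Bool) → Bool
  | [], k => k []
  | [a], k => mkF u a first fun c => k [c]
  | a :: b :: l, k => mkF u a b fun c => cones u first (b :: l) fun cs => k (c :: cs)

/-- look up the neighbours -/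
def look (all : List (Vt × List ℕ)) : List ℕ → (List Vt → Bool) → Bool
  | [], k => k []
  | i :: l, k => match all[i]? with
    | none => false
    | some a => look all l fun as => k (a.1 :: as)

def pairs (u : Vt) (cs : List Cn) : List (Vt × List ℕ) → Bool
  | [] => true
  | w :: l => (lipT u w.1 || force (u.x * w.1.y) fun m => force (u.y * w.1.x) fun m' =>
      cs.any (coneT m m' w.1)) && pairs u cs l

/-- the first `k` entries of the list against all the later ones -/
def loopN (all : List (Vt × List ℕ)) : ℕ → List (Vt × List ℕ) → Bool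
  | 0, _ => true
  | _ + 1, [] => true
  | k + 1, w :: l => (look all w.2 fun ns => match ns with
      | [] => false
      | a :: ns' => cones w.1 a (a :: ns') fun cs => pairs w.1 cs l) && loopN all k l

/-- preparation -/
def prep : List (ℕ × ℕ × ℕ × List ℕ) → (List (Vt × List ℕ) → Bool) → Bool
  | [], k => k []
  | (x, y, f, l) :: d, k =>
    force x fun x => force y fun y => force f fun f =>
    force (x * x + y * y) fun q => force (f * f) fun s =>
    prep d fun r => k ((⟨x, y, q, f, s⟩, l) :: r)

/-- the entries `a, ..., a + k - 1` against all the later ones -/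
def check (d : List (ℕ × ℕ × ℕ × List ℕ)) (a k : ℕ) : Bool :=
  prep d fun all => loopN all k (all.drop a)

/-- the last test -/
def endT (d : List (ℕ × ℕ × ℕ × List ℕ)) (p q num den : ℕ) : Bool :=
  match d[p]?, d[q]? with
  | some (xp, yp, fp, _), some (xq, yq, fq, _) => Nat.blt fp fq &&
    Nat.blt (num * num * (xp * xp + yp * yp + (xq * xq + yq * yq)) + 2 * (den * den) * (fp * fq))
      (den * den * (fp * fp + fq * fq) + 2 * (num * num) * (xp * xq + yp * yq))
  | _, _ => false

end DLow
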