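import Mathlib

/-!
# Lower bound for the stretch factor of Delaunay triangulations: definitions
-/

set_option autoImplicit false

namespace DLow

/-- General position: no three points of `S` are collinear and no four are on a circle. -/
structure GenPos (S : Finset ℂ) : Prop where
  line : ∀ a ∈ S, ∀ b ∈ S, ∀ c ∈ S, a ≠ b → a ≠ c → b ≠ c → ¬ Collinear ℝ ({a, b, c} : Set ℂ)
  circle : ∀ a ∈ S, ∀ b ∈ S, ∀ c ∈ S, ∀ d ∈ S, a ≠ b → a ≠ c → a ≠ d → b ≠ c → b ≠ d → c ≠ d →
    ¬ ∃ (o : ℂ) (r : ℝ), dist a o = r ∧ dist b o = r ∧ dist c o = r ∧ dist d o = r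

/-- The Delaunay triangulation: `u v` is an edge iff some circle through `u` and `v` has no point
of `S` in its interior. -/
def Del (S : Finset ℂ) : SimpleGraph ℂ where
  Adj u v := u ≠ v ∧ u ∈ S ∧ v ∈ S ∧
    ∃ (o : ℂ) (r : ℝ), dist u o = r ∧ dist v o = r ∧ ∀ w ∈ S, r ≤ dist w o
  symm := ⟨fun _ _ ⟨h, hu, hv, o, r, h1, h2, h3⟩ => ⟨h.symm, hv, hu, o, r, h2, h1, h3⟩⟩
  loopless := ⟨fun _ h => h.1 rfl⟩

/-- The length of a walk, every edge having its Euclidean length. -/
noncomputable def wlen {G : SimpleGraph ℂ} {p q : ℂ} (w : G.Walk p q) : ℝ :=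
  (w.darts.map fun d => dist d.fst d.snd).sum

/-- orientation of the triangle `u a v` -/
def cr (u a v : ℂ) : ℝ := (a - u).re * (v - u).im - (a - u).im * (v - u).re

/-- the in-circle determinant -/
noncomputable def inc (u a b v : ℂ) : ℝ :=
  Complex.normSq (v - u) * cr u a b - cr u v b * Complex.normSq (a - u) -
    cr u a v * Complex.normSq (b - u)

end DLow
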