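import Pool.Agent.Work.MP_74021c_co.Low.Check
import Pool.Agent.Work.MP_74021c_co.Bd.B04

set_option autoImplicit false

namespace DLow

theorem blt_iff (a b : ℕ) : Nat.blt a b = true ↔ a < b := by
  simp [Nat.blt_eq]

/-- the prepared data -/
def toV (e : ℕ × ℕ × ℕ × List ℕ) : Vt × List ℕ :=
  (⟨e.1, e.2.1, e.1 * e.1 + e.2.1 * e.2.1, e.2.2.1, e.2.2.1 * e.2.2.1⟩, e.2.2.2)

theorem prep_eq (d : List (ℕ × ℕ × ℕ × List ℕ)) : ∀ k : List (Vt × List ℕ) → Bool,
    prep d k = k (d.map toV) := by
  induction d with
  | nil => intro k; rfl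
  | cons e d ih =>
    intro k
    obtain ⟨x, y, f, l⟩ := e
    simp only [prep, force_eq, ih, List.map_cons, toV]

def OK (all : List (Vt × List ℕ)) (u v : Vt) : Prop :=
  lipT u v = true ∨ ∃ a ∈ all, ∃ b ∈ all, coneT (u.x * v.y) (u.y * v.x) v (mk u a.1 b.1) = true

theorem look_sound (all : List (Vt × List ℕ)) : ∀ (l : List ℕ) (k : List Vt → Bool),
    look all l k = true → ∃ as : List Vt, k as = true ∧ ∀ a ∈ as, ∃ w ∈ all, w.1 = a := by
  intro l
  induction l with
  | nil =>
    intro k h
    exact ⟨[], h, by simp⟩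
  | cons i l ih =>
    intro k h
    unfold look at h
    cases hi : all[i]? with
    | none => rw [hi] at h; exact absurd h (by simp)
    | some a =>
      rw [hi] at h
      obtain ⟨as, h1, h2⟩ := ih _ h
      refine ⟨a.1 :: as, h1, ?_⟩
      intro b hb
      rcases List.mem_cons.1 hb with rfl | hb
      · exact ⟨a, List.mem_of_getElem? hi, rfl⟩
      · exact h2 b hb

theorem cones_sound (u first : Vt) : ∀ (l : List Vt) (k : List Cn → Bool),
    cones u first l k = true → ∃ cs : List Cn, k cs = true ∧
      ∀ c ∈ cs, ∃ a ∈ first :: l, ∃ b ∈ first :: l, c = mk u a b := by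
  intro l
  induction l with
  | nil =>
    intro k h
    exact ⟨[], h, by simp⟩
  | cons a l ih =>
    intro k h
    cases l with
    | nil =>
      unfold cones at h
      rw [mkF_eq] at h
      exact ⟨[mk u a first], h, fun c hc => ⟨a, by simp, first, by simp, by simpa using hc⟩⟩
    | cons b l =>
      unfold cones at h
      rw [mkF_eq] at h
      obtain ⟨cs, h1, h2⟩ := ih _ h
      refine ⟨mk u a b :: cs, h1, ?_⟩
      intro c hc
      rcases List.mem_cons.1 hc with rfl | hc
      · exact ⟨a, by simp, b, by simp, rfl⟩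
      · obtain ⟨a', ha', b', hb', e⟩ := h2 c hc
        refine ⟨a', ?_, b', ?_, e⟩
        · rcases List.mem_cons.1 ha' with h | h
          · exact h ▸ List.mem_cons_self
          · exact List.mem_cons_of_mem _ (List.mem_cons_of_mem _ h)
        · rcases List.mem_cons.1 hb' with h | h
          · exact h ▸ List.mem_cons_self
          · exact List.mem_cons_of_mem _ (List.mem_cons_of_mem _ h)

theorem pairs_sound (u : Vt) (cs : List Cn) : ∀ l : List (Vt × List ℕ), pairs u cs l = true →
    ∀ w ∈ l, lipT u w.1 = true ∨ ∃ c ∈ cs, coneT (u.x * w.1.y) (u.y * w.1.x) w.1 c = true := by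
  intro l
  induction l with
  | nil => intro _ w hw; simp at hw
  | cons w l ih =>
    intro h w' hw'
    unfold pairs at h
    rw [Bool.and_eq_true, Bool.or_eq_true, force_eq, force_eq] at h
    rcases List.mem_cons.1 hw' with rfl | hw'
    · rcases h.1 with h1 | h1
      · exact Or.inl h1
      · rw [List.any_eq_true] at h1
        obtain ⟨c, hc, h2⟩ := h1
        exact Or.inr ⟨c, hc, h2⟩
    · exact ih h.2 w' hw'

theorem loopN_sound (all : List (Vt × List ℕ)) : ∀ (k : ℕ) (l : List (Vt × List ℕ)),
    loopN all k l = true → ∀ i < k, ∀ j, i < j → ∀ (u v : Vt × List ℕ), l[i]? = some u →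
      l[j]? = some v → OK all u.1 v.1 := by
  intro k
  induction k with
  | zero => intro l _ i hi; omega
  | succ k ih =>
    intro l h i hi j hij u v hu hv
    cases l with
    | nil => simp at hu
    | cons w l =>
      unfold loopN at h
      rw [Bool.and_eq_true] at h
      obtain ⟨h1, h2⟩ := h
      cases i with
      | zero =>
        have hwu : w = u := by simpa using hu
        subst hwu
        have hvl : v ∈ l := by
          obtain ⟨j', rfl⟩ : ∃ j', j = j' + 1 := ⟨j - 1, by omega⟩
          rw [List.getElem?_cons_succ] at hv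
          exact List.mem_of_getElem? hv
        obtain ⟨as, h3, h4⟩ := look_sound all w.2 _ h1
        cases as with
        | nil => simp at h3
        | cons a as =>
          obtain ⟨cs, h5, h6⟩ := cones_sound w.1 a _ _ h3
          rcases pairs_sound w.1 cs l h5 v hvl with h7 | ⟨c, hc, h7⟩
          · exact Or.inl h7
          · obtain ⟨a', ha', b', hb', e⟩ := h6 c hc
            have ha'' : a' ∈ a :: as := by
              rcases List.mem_cons.1 ha' with h | h
              · exact h ▸ List.mem_cons_self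
              · exact h
            have hb'' : b' ∈ a :: as := by
              rcases List.mem_cons.1 hb' with h | h
              · exact h ▸ List.mem_cons_self
              · exact h
            obtain ⟨wa, hwa, rfl⟩ := h4 a' ha''
            obtain ⟨wb, hwb, rfl⟩ := h4 b' hb''
            exact Or.inr ⟨wa, hwa, wb, hwb, e ▸ h7⟩
      | succ i =>
        obtain ⟨j', rfl⟩ : ∃ j', j = j' + 1 := ⟨j - 1, by omega⟩
        rw [List.getElem?_cons_succ] at hu hv
        exact ih l h2 i (by omega) j' (by omega) u v hu hv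

theorem check_sound (d : List (ℕ × ℕ × ℕ × List ℕ)) (a k : ℕ) (h : check d a k = true) :
    ∀ i, a ≤ i → i < a + k → ∀ j, i < j → ∀ (u v : Vt × List ℕ), (d.map toV)[i]? = some u →
      (d.map toV)[j]? = some v → OK (d.map toV) u.1 v.1 := by
  intro i hi hik j hij u v hu hv
  unfold check at h
  rw [prep_eq] at h
  refine loopN_sound _ k _ h (i - a) (by omega) (j - a) (by omega) u v ?_ ?_
  · rw [List.getElem?_drop, show a + (i - a) = i by omega]
    exact hu
  · rw [List.getElem?_drop, show a + (j - a) = j by omega]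
    exact hv

/-! ## real numbers -/

noncomputable def pos (v : Vt) : ℂ := ⟨v.x, v.y⟩

theorem lip_real (u v : Vt) (hu : u.q = u.x * u.x + u.y * u.y) (hv : v.q = v.x * v.x + v.y * v.y)
    (hu' : u.s = u.f * u.f) (hv' : v.s = v.f * v.f) (h : lipT u v = true) :
    ((u.f : ℝ) - v.f) ^ 2 < Complex.normSq (pos u - pos v) := by
  unfold lipT at h
  rw [blt_iff, hu, hv, hu', hv'] at h
  have h2 : ((2 * (u.x * v.x + u.y * v.y) + (u.f * u.f + v.f * v.f) : ℕ) : ℝ) <
      ((u.x * u.x + u.y * u.y + (v.x * v.x + v.y * v.y) + 2 * (u.f * v.f) : ℕ) : ℝ) := by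
    exact_mod_cast h
  push_cast at h2
  rw [Complex.normSq_apply]
  simp only [pos, Complex.sub_re, Complex.sub_im]
  nlinarith

theorem cone_real (u v a b : Vt) (hu : u.q = u.x * u.x + u.y * u.y)
    (hv : v.q = v.x * v.x + v.y * v.y) (ha : a.q = a.x * a.x + a.y * a.y)
    (hb : b.q = b.x * b.x + b.y * b.y)
    (h : coneT (u.x * v.y) (u.y * v.x) v (mk u a b) = true) :
    0 < cr (pos u) (pos a) (pos v) ∧ 0 < cr (pos u) (pos v) (pos b) ∧
      0 < inc (pos u) (pos a) (pos b) (pos v) := by
  unfold coneT mk at h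
  simp only [Bool.and_eq_true, blt_iff] at h
  rw [hu, hv, ha, hb] at h
  obtain ⟨h1, h2, h3⟩ := h
  have h1' : ((a.y * v.x + u.x * v.y + u.y * a.x : ℕ) : ℝ) <
      ((a.x * v.y + u.y * v.x + u.x * a.y : ℕ) : ℝ) := by exact_mod_cast h1
  have h2' := (Nat.cast_lt (α := ℝ)).2 h2
  have h3' := (Nat.cast_lt (α := ℝ)).2 h3
  push_cast at h1' h2' h3'
  refine ⟨?_, ?_, ?_⟩
  · unfold cr
    simp only [pos, Complex.sub_re, Complex.sub_im]
    nlinarith
  · unfold cr
    simp only [pos, Complex.sub_re, Complex.sub_im]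
    nlinarith
  · unfold inc cr
    simp only [Complex.normSq_apply, pos, Complex.sub_re, Complex.sub_im]
    have e : ∀ x y : ℝ, x < y → 0 < y - x := fun x y h => sub_pos.2 h
    have h4 := e _ _ h3'
    refine lt_of_lt_of_eq h4 ?_
    ring

end DLow
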